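import Mathlib

/-!
# MP_35dbbb_co : the lower bound for the Thue chromatic number of lexicographic products fails

For `G = C₇` and `H = 2K₁` we have `π(G) ≥ 4`, so that `π(H) + (π(G) - 1)|V(H)| ≥ 7`, but
`π(G[H]) ≤ 6`.
-/

set_option autoImplicit false

namespace Pool.Agent.Results.MP_35dbbb_co.CycleSeven

/-- The colouring `c` of `G` is nonrepetitive: no path of `G` (a list of distinct vertices,
consecutive ones adjacent) has the form `p₁ ++ p₂` with `p₁` nonempty and `p₁`, `p₂` having the
same sequence of colours. -/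
def Nonrepetitive {V C : Type*} (G : SimpleGraph V) (c : V → C) : Prop :=
  ∀ p₁ p₂ : List V, p₁ ≠ [] → (p₁ ++ p₂).Nodup → (p₁ ++ p₂).IsChain G.Adj →
    p₁.map c ≠ p₂.map c

/-- The Thue chromatic number of `G`. -/
noncomputable def thue {V : Type*} (G : SimpleGraph V) : ℕ :=
  sInf {k | ∃ c : V → Fin k, Nonrepetitive G c}

/-- The lexicographic product `G[H]`. -/
def lex {V W : Type*} (G : SimpleGraph V) (H : SimpleGraph W) : SimpleGraph (V × W) where
  Adj p q := G.Adj p.1 q.1 ∨ (p.1 = q.1 ∧ H.Adj p.2 q.2)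
  symm := ⟨by
    rintro p q (h | ⟨h1, h2⟩)
    · exact Or.inl h.symm
    · exact Or.inr ⟨h1.symm, h2.symm⟩⟩
  loopless := ⟨by
    rintro p (h | ⟨-, h⟩)
    · exact G.loopless.irrefl _ h
    · exact H.loopless.irrefl _ h⟩

/-! ### `π(C₇) ≥ 4` -/

theorem C7_adj : ∀ i : Fin 7, (SimpleGraph.cycleGraph 7).Adj i (i + 1) := by decide

theorem square_exists : ∀ a b c d e f g : Fin 3, ∃ i : Fin 7,
    (![a, b, c, d, e, f, g] i = ![a, b, c, d, e, f, g] (i + 1)) ∨
    (![a, b, c, d, e, f, g] i = ![a, b, c, d, e, f, g] (i + 2) ∧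
      ![a, b, c, d, e, f, g] (i + 1) = ![a, b, c, d, e, f, g] (i + 3)) ∨
    (![a, b, c, d, e, f, g] i = ![a, b, c, d, e, f, g] (i + 3) ∧
      ![a, b, c, d, e, f, g] (i + 1) = ![a, b, c, d, e, f, g] (i + 4) ∧
      ![a, b, c, d, e, f, g] (i + 2) = ![a, b, c, d, e, f, g] (i + 5)) := by
  decide +kernel

theorem no_three (c : Fin 7 → Fin 3) : ¬ Nonrepetitive (SimpleGraph.cycleGraph 7) c := by
  intro hc
  have key : c = ![c 0, c 1, c 2, c 3, c 4, c 5, c 6] := by
    funext i
    fin_cases i <;> rfl
  obtain ⟨i, h⟩ := square_exists (c 0) (c 1) (c 2) (c 3) (c 4) (c 5) (c 6)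
  rw [← key] at h
  have a0 := C7_adj i
  have a1 := C7_adj (i + 1)
  have a2 := C7_adj (i + 2)
  have a3 := C7_adj (i + 3)
  have a4 := C7_adj (i + 4)
  have e1 : i + 1 + 1 = i + 2 := (by decide : ∀ i : Fin 7, i + 1 + 1 = i + 2) i
  have e2 : i + 2 + 1 = i + 3 := (by decide : ∀ i : Fin 7, i + 2 + 1 = i + 3) i
  have e3 : i + 3 + 1 = i + 4 := (by decide : ∀ i : Fin 7, i + 3 + 1 = i + 4) i
  have e4 : i + 4 + 1 = i + 5 := (by decide : ∀ i : Fin 7, i + 4 + 1 = i + 5) i
  rw [e1] at a1
  rw [e2] at a2
  rw [e3] at a3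
  rw [e4] at a4
  rcases h with h | ⟨h1, h2⟩ | ⟨h1, h2, h3⟩
  · refine hc [i] [i + 1] (by simp) ?_ ?_ (by simp [h])
    · exact (by decide : ∀ i : Fin 7, ([i] ++ [i + 1]).Nodup) i
    · simpa using a0
  · refine hc [i, i + 1] [i + 2, i + 3] (by simp) ?_ ?_ (by simp [h1, h2])
    · have := (by decide : ∀ i : Fin 7, ([i, i + 1] ++ [i + 2, i + 3]).Nodup) i
      exact this
    · simp [a0, a1, a2]
  · refine hc [i, i + 1, i + 2] [i + 3, i + 4, i + 5] (by simp) ?_ ?_ (by simp [h1, h2, h3])
    · have := (by decide : ∀ i : Fin 7,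
        ([i, i + 1, i + 2] ++ [i + 3, i + 4, i + 5]).Nodup) i
      exact this
    · simp [a0, a1, a2, a3, a4]

theorem Nonrepetitive.comp {V C D : Type*} {G : SimpleGraph V} {c : V → C}
    (h : Nonrepetitive G c) {f : C → D} (hf : Function.Injective f) :
    Nonrepetitive G (f ∘ c) := by
  intro p₁ p₂ h1 h2 h3 h4
  refine h p₁ p₂ h1 h2 h3 ?_
  rw [← List.map_map, ← List.map_map] at h4
  exact List.map_injective_iff.mpr hf h4

theorem four_le_of_nonrep {k : ℕ} (c : Fin 7 → Fin k)
    (h : Nonrepetitive (SimpleGraph.cycleGraph 7) c) : 4 ≤ k := by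
  by_contra hk
  push Not at hk
  exact no_three (Fin.castLE (by omega) ∘ c) (h.comp (Fin.castLE_injective _))

theorem inj_nonrep {V C : Type*} (G : SimpleGraph V) {c : V → C} (hc : Function.Injective c) :
    Nonrepetitive G c := by
  intro p₁ p₂ h1 h2 _ h4
  have h5 := List.map_injective_iff.mpr hc h4
  subst h5
  obtain ⟨x, l, rfl⟩ := List.exists_cons_of_ne_nil h1
  rw [List.nodup_append] at h2
  exact h2.2.2 x (by simp) x (by simp) rfl

theorem four_le_thue : 4 ≤ thue (SimpleGraph.cycleGraph 7) := by
  have hne : {k | ∃ c : Fin 7 → Fin k, Nonrepetitive (SimpleGraph.cycleGraph 7) c}.Nonempty :=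
    ⟨7, id, inj_nonrep _ Function.injective_id⟩
  obtain ⟨c, hc⟩ := Nat.sInf_mem hne
  exact four_le_of_nonrep c hc

theorem one_le_thue : 1 ≤ thue (⊥ : SimpleGraph (Fin 2)) := by
  have hne : {k | ∃ c : Fin 2 → Fin k, Nonrepetitive (⊥ : SimpleGraph (Fin 2)) c}.Nonempty :=
    ⟨2, id, inj_nonrep _ Function.injective_id⟩
  obtain ⟨c, -⟩ := Nat.sInf_mem hne
  exact Nat.one_le_iff_ne_zero.mpr fun h => by
    have h2 := (c 0).2
    unfold thue at h
    omega

/-! ### `π(C₇[2K₁]) ≤ 6` -/

/-- The code of a vertex. -/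
def enc (p : Fin 7 × Fin 2) : ℕ := 2 * (p.1 : ℕ) + (p.2 : ℕ)

/-- The neighbourhoods, as bit masks. -/
def nb (x : ℕ) : ℕ := [12300, 12300, 51, 51, 204, 204, 816, 816, 3264, 3264, 13056, 13056, 3075,
  3075].getD x 0

/-- The colours of the vertices. -/
def col (x : ℕ) : ℕ := [0, 0, 3, 4, 0, 1, 2, 2, 3, 4, 0, 0, 1, 5].getD x 0

theorem nb_iff : ∀ p q : Fin 7 × Fin 2, (nb (enc p)).testBit (enc q) = true ↔
    ((SimpleGraph.cycleGraph 7).Adj p.1 q.1 ∨ (p.1 = q.1 ∧ (⊥ : SimpleGraph (Fin 2)).Adj p.2 q.2)) := by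
  decide +kernel

theorem enc_lt : ∀ p, enc p < 14 := by decide

theorem enc_inj : Function.Injective enc := by decide +kernel

theorem col_lt : ∀ p, col (enc p) < 6 := by decide

/-- No square is completed: `v`, `w` are the current vertices of the two halves, `used` is the set
of the vertices already used and `w₁` is the first vertex of the second half. -/
def chk : ℕ → ℕ → ℕ → ℕ → ℕ → Bool
  | 0, _, _, _, _ => false
  | k + 1, v, w, used, w₁ => !(nb v).testBit w₁ && (List.range 14).all fun x =>
      !(nb v).testBit x || (used.testBit x || (List.range 14).all fun y =>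
        !(nb w).testBit y || (used.testBit y || (x == y || (!(col x == col y) ||
          chk k x y (used ||| (1 <<< x ||| 1 <<< y)) w₁))))

theorem chk_all : ((List.range 14).all fun v => (List.range 14).all fun w => v == w ||
    (!(col v == col w) || chk 8 v w (1 <<< v ||| 1 <<< w) w)) = true := by decide +kernel

/-- The colouring with 6 colours. -/
def c6 (p : Fin 7 × Fin 2) : Fin 6 := ⟨col (enc p), col_lt p⟩

theorem testBit_shift (x y : ℕ) : (1 <<< x).testBit y = decide (x = y) := by
  rw [Nat.one_shiftLeft, Nat.testBit_two_pow]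

/-- The graph `C₇[2K₁]`. -/
abbrev P : SimpleGraph (Fin 7 × Fin 2) := lex (SimpleGraph.cycleGraph 7) ⊥

theorem P_adj {p q : Fin 7 × Fin 2} (h : P.Adj p q) : (nb (enc p)).testBit (enc q) = true :=
  (nb_iff p q).mpr h

theorem chk_sound : ∀ (l₁ l₂ : List (Fin 7 × Fin 2)) (k used : ℕ) (v w w₁ : Fin 7 × Fin 2),
    chk k (enc v) (enc w) used (enc w₁) = true → (v :: l₁).IsChain P.Adj →
    (w :: l₂).IsChain P.Adj → l₁.map c6 = l₂.map c6 → (l₁ ++ l₂).Nodup →
    (∀ z ∈ l₁ ++ l₂, used.testBit (enc z) = false) → (∀ x ∈ (v :: l₁).getLast?, P.Adj x w₁) →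
    False := by
  intro l₁
  induction l₁ with
  | nil =>
    intro l₂ k used v w w₁ hchk _ _ _ _ _ hlast
    have h := P_adj (hlast v (by simp))
    cases k with
    | zero => simp [chk] at hchk
    | succ k =>
      unfold chk at hchk
      rw [Bool.and_eq_true, h] at hchk
      exact absurd hchk.1 (by decide)
  | cons x l₁ ih =>
    intro l₂ k used v w w₁ hchk hc1 hc2 hmap hnd hused hlast
    cases l₂ with
    | nil => simp at hmap
    | cons y l₂ =>
      cases k with
      | zero => simp [chk] at hchk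
      | succ k =>
        unfold chk at hchk
        rw [Bool.and_eq_true] at hchk
        have h1 := hchk.2
        rw [List.all_eq_true] at h1
        have h2 := h1 (enc x) (List.mem_range.mpr (enc_lt x))
        have hvx : P.Adj v x := (List.isChain_cons_cons.mp hc1).1
        have hwy : P.Adj w y := (List.isChain_cons_cons.mp hc2).1
        have hux : used.testBit (enc x) = false := hused x (by simp)
        have huy : used.testBit (enc y) = false := hused y (by simp)
        rw [P_adj hvx, hux, Bool.not_true, Bool.false_or, Bool.false_or, List.all_eq_true] at h2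
        have h3 := h2 (enc y) (List.mem_range.mpr (enc_lt y))
        have hxy : x ≠ y := by
          rintro rfl
          rw [List.nodup_append] at hnd
          exact hnd.2.2 x (by simp) x (by simp) rfl
        have hxy' : (enc x == enc y) = false := by
          rw [beq_eq_false_iff_ne]
          exact fun h => hxy (enc_inj h)
        have hcol : (col (enc x) == col (enc y)) = true := by
          rw [beq_iff_eq]
          rw [List.map_cons, List.map_cons, List.cons.injEq] at hmap
          exact congrArg Fin.val hmap.1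
        rw [P_adj hwy, huy, hxy', hcol, Bool.not_true, Bool.false_or, Bool.false_or,
          Bool.false_or, Bool.false_or] at h3
        refine ih l₂ k _ x y w₁ h3 (List.isChain_cons_cons.mp hc1).2
          (List.isChain_cons_cons.mp hc2).2 ?_ ?_ ?_ ?_
        · rw [List.map_cons, List.map_cons, List.cons.injEq] at hmap
          exact hmap.2
        · rw [List.nodup_append] at hnd ⊢
          refine ⟨(List.nodup_cons.mp hnd.1).2, (List.nodup_cons.mp hnd.2.1).2, ?_⟩
          intro a ha b hb
          exact hnd.2.2 a (List.mem_cons_of_mem _ ha) b (List.mem_cons_of_mem _ hb)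
        · intro z hz
          rw [List.nodup_append] at hnd
          have hz1 : x ≠ z := by
            rintro rfl
            rcases List.mem_append.mp hz with h | h
            · exact (List.nodup_cons.mp hnd.1).1 h
            · exact hnd.2.2 x (by simp) x (List.mem_cons_of_mem _ h) rfl
          have hz2 : y ≠ z := by
            rintro rfl
            rcases List.mem_append.mp hz with h | h
            · exact hnd.2.2 y (List.mem_cons_of_mem _ h) y (by simp) rfl
            · exact (List.nodup_cons.mp hnd.2.1).1 h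
          have hz3 : used.testBit (enc z) = false := by
            apply hused
            rcases List.mem_append.mp hz with h | h
            · exact List.mem_append.mpr (Or.inl (List.mem_cons_of_mem _ h))
            · exact List.mem_append.mpr (Or.inr (List.mem_cons_of_mem _ h))
          rw [Nat.testBit_or, Nat.testBit_or, testBit_shift, testBit_shift, hz3,
            decide_eq_false (fun h => hz1 (enc_inj h)), decide_eq_false (fun h => hz2 (enc_inj h))]
          rfl
        · intro z hz
          apply hlast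
          rwa [List.getLast?_cons_cons]

theorem nonrep6 : Nonrepetitive P c6 := by
  intro p₁ p₂ hne hnd hch hmap
  obtain ⟨v, l₁, rfl⟩ := List.exists_cons_of_ne_nil hne
  cases p₂ with
  | nil => simp at hmap
  | cons w l₂ =>
    rw [List.isChain_append] at hch
    have hnd' := List.nodup_append.mp hnd
    have hvw : v ≠ w := hnd'.2.2 v (by simp) w (by simp)
    rw [List.map_cons, List.map_cons, List.cons.injEq] at hmap
    have h1 := chk_all
    rw [List.all_eq_true] at h1
    have h2 := h1 (enc v) (List.mem_range.mpr (enc_lt v))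
    rw [List.all_eq_true] at h2
    have h3 := h2 (enc w) (List.mem_range.mpr (enc_lt w))
    have hvw' : (enc v == enc w) = false := by
      rw [beq_eq_false_iff_ne]
      exact fun h => hvw (enc_inj h)
    have hcol : (col (enc v) == col (enc w)) = true := by
      rw [beq_iff_eq]
      exact congrArg Fin.val hmap.1
    rw [hvw', hcol, Bool.false_or, Bool.not_true, Bool.false_or] at h3
    refine chk_sound l₁ l₂ 8 _ v w w h3 hch.1 hch.2.1 hmap.2 ?_ ?_ ?_
    · rw [List.nodup_append]
      refine ⟨(List.nodup_cons.mp hnd'.1).2, (List.nodup_cons.mp hnd'.2.1).2, ?_⟩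
      intro a ha b hb
      exact hnd'.2.2 a (List.mem_cons_of_mem _ ha) b (List.mem_cons_of_mem _ hb)
    · intro z hz
      have hz1 : v ≠ z := by
        rintro rfl
        rcases List.mem_append.mp hz with h | h
        · exact (List.nodup_cons.mp hnd'.1).1 h
        · exact hnd'.2.2 v (by simp) v (List.mem_cons_of_mem _ h) rfl
      have hz2 : w ≠ z := by
        rintro rfl
        rcases List.mem_append.mp hz with h | h
        · exact hnd'.2.2 w (List.mem_cons_of_mem _ h) w (by simp) rfl
        · exact (List.nodup_cons.mp hnd'.2.1).1 h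
      rw [Nat.testBit_or, testBit_shift, testBit_shift,
        decide_eq_false (fun h => hz1 (enc_inj h)), decide_eq_false (fun h => hz2 (enc_inj h))]
      rfl
    · intro x hx
      exact hch.2.2 x hx w (by simp)

theorem thue_le_six : thue P ≤ 6 := Nat.sInf_le ⟨c6, nonrep6⟩

/-- **MP_35dbbb_co, Q1 (disproof).** For `G = C₇` and `H = 2K₁`,
`π(G[H]) < π(H) + (π(G) - 1)|V(H)|`. -/
theorem result :
    (thue (lex (SimpleGraph.cycleGraph 7) (⊥ : SimpleGraph (Fin 2))) ≤ 6 ∧
      4 ≤ thue (SimpleGraph.cycleGraph 7) ∧ 1 ≤ thue (⊥ : SimpleGraph (Fin 2))) ∧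
    thue (lex (SimpleGraph.cycleGraph 7) (⊥ : SimpleGraph (Fin 2))) <
      thue (⊥ : SimpleGraph (Fin 2)) +
        (thue (SimpleGraph.cycleGraph 7) - 1) * Fintype.card (Fin 2) := by
  have h1 := thue_le_six
  have h2 := four_le_thue
  have h3 := one_le_thue
  refine ⟨⟨h1, h2, h3⟩, ?_⟩
  rw [Fintype.card_fin]
  change thue P < _
  omega

end Pool.Agent.Results.MP_35dbbb_co.CycleSeven
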